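import Pool.Agent.W427.SMC.Pa1

set_option autoImplicit false

/-! Job L6 of project RF (helper82): the distribution of `W(φ)`, `W = X ^ k U`. The first part is a
copy of lemmas of `Pool/Agent/N138/SV/C0.lean` (small closure). -/

namespace Pool.Agent.N82.RF

open MeasureTheory
open Pool.Agent.W427.SMC (msZ bsZ mu)

attribute [local instance] msZ bsZ

variable {p : ℕ} [Fact p.Prime]

/-- isometries of a compact metric space are onto -/
theorem isom_onto {X : Type*} [MetricSpace X] [CompactSpace X] (f : X → X) (hf : Isometry f) :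
    Function.Surjective f := by
  by_contra hns
  rw [Function.Surjective] at hns
  push Not at hns
  obtain ⟨x, hx⟩ := hns
  have hcl : IsClosed (Set.range f) := (isCompact_range hf.continuous).isClosed
  have hxn : x ∉ Set.range f := by
    rintro ⟨a, ha⟩
    exact hx a ha
  obtain ⟨ε, hε, hb⟩ := Metric.isOpen_iff.1 hcl.isOpen_compl x hxn
  have hit : ∀ n : ℕ, Isometry (f^[n]) := fun n => by
    induction n with
    | zero => exact isometry_id
    | succ n ih => rw [Function.iterate_succ]; exact ih.comp hf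
  have hfar : ∀ m n : ℕ, m < n → ε ≤ dist (f^[n] x) (f^[m] x) := by
    intro m n hmn
    obtain ⟨k, rfl⟩ := Nat.exists_eq_add_of_lt hmn
    have e1 : f^[m + k + 1] x = f^[m] (f (f^[k] x)) := by
      rw [← Function.iterate_succ_apply' f k x, ← Function.iterate_add_apply]
      rfl
    rw [e1, (hit m).dist_eq]
    by_contra hlt
    push Not at hlt
    exact hb (Metric.mem_ball.2 hlt) ⟨_, rfl⟩
  obtain ⟨a, φ, hφ, hlim⟩ := CompactSpace.tendsto_subseq (fun n => f^[n] x)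
  have hc := hlim.cauchySeq
  obtain ⟨N, hN⟩ := Metric.cauchySeq_iff'.1 hc ε hε
  have := hN (N + 1) (Nat.le_succ N)
  have h2 := hfar (φ N) (φ (N + 1)) (hφ (Nat.lt_succ_self N))
  simp only [Function.comp] at this
  linarith

theorem cb_eq {a b : ℤ_[p]} {r : ℝ} (h : b ∈ Metric.closedBall a r) :
    Metric.closedBall a r = Metric.closedBall b r := by
  have : IsUltrametricDist ℤ_[p] := inferInstance
  exact (IsUltrametricDist.closedBall_eq_of_mem h)

theorem mu_cb (a b : ℤ_[p]) (r : ℝ) : mu p (Metric.closedBall a r) = mu p (Metric.closedBall b r) := by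
  have h := measure_preimage_add (mu p) (b - a) (Metric.closedBall b r)
  rw [← h]
  congr 1
  ext z
  simp only [Set.mem_preimage, Metric.mem_closedBall, dist_eq_norm]
  rw [show b - a + z - b = z - a by ring]

theorem gen : (msZ p) = MeasurableSpace.generateFrom
    {S : Set ℤ_[p] | ∃ (c : ℤ_[p]) (r : ℝ), 0 < r ∧ S = Metric.closedBall c r} := by
  have hB : TopologicalSpace.IsTopologicalBasis
      {S : Set ℤ_[p] | ∃ (c : ℤ_[p]) (r : ℝ), 0 < r ∧ S = Metric.closedBall c r} := by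
    refine TopologicalSpace.isTopologicalBasis_of_isOpen_of_nhds ?_ ?_
    · rintro S ⟨c, r, hr, rfl⟩
      exact IsUltrametricDist.isOpen_closedBall c hr.ne'
    · intro a U ha hU
      obtain ⟨ε, hε, hε2⟩ := Metric.isOpen_iff.1 hU a ha
      refine ⟨_, ⟨a, ε / 2, half_pos hε, rfl⟩, ?_, ?_⟩
      · exact Metric.mem_closedBall_self (half_pos hε).le
      · exact (Metric.closedBall_subset_ball (half_lt_self hε)).trans hε2
  exact hB.borel_eq_generateFrom

theorem map_isom (ψ : ℤ_[p] → ℤ_[p]) (hψ : Isometry ψ) : (mu p).map ψ = mu p := by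
  have hm : Measurable ψ := hψ.continuous.measurable
  have hf : IsFiniteMeasure ((mu p).map ψ) := inferInstance
  refine ext_of_generate_finite _ gen ?_ ?_ ?_
  · rintro S ⟨c, r, hr, rfl⟩ T ⟨c', r', hr', rfl⟩ ⟨x, hx, hx'⟩
    refine ⟨x, min r r', lt_min hr hr', ?_⟩
    rw [cb_eq hx, cb_eq hx']
    rcases le_total r r' with h | h
    · rw [min_eq_left h]
      exact Set.inter_eq_self_of_subset_left (Metric.closedBall_subset_closedBall h)
    · rw [min_eq_right h]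
      exact Set.inter_eq_self_of_subset_right (Metric.closedBall_subset_closedBall h)
  · rintro S ⟨c, r, hr, rfl⟩
    obtain ⟨b, rfl⟩ := isom_onto ψ hψ c
    rw [Measure.map_apply hm Metric.isClosed_closedBall.measurableSet, hψ.preimage_closedBall]
    exact mu_cb _ _ _
  · rw [Measure.map_apply hm MeasurableSet.univ, Set.preimage_univ]

theorem int_isom (ψ : ℤ_[p] → ℤ_[p]) (hψ : Isometry ψ) (H : ℤ_[p] → ℂ) (hH : Measurable H) :
    ∫ t, H (ψ t) ∂(mu p) = ∫ t, H t ∂(mu p) := by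
  conv_rhs => rw [← map_isom ψ hψ]
  rw [integral_map hψ.continuous.measurable.aemeasurable hH.aestronglyMeasurable]

/-! ### averaging, integral version -/

/-- divisibility by norms -/
theorem dvd_of_norm {a c : ℤ_[p]} (h : ‖a‖ ≤ ‖c‖) : ∃ b : ℤ_[p], a = c * b := by
  rcases ValuationRing.dvd_total c a with h1 | ⟨b, hb⟩
  · exact h1
  · by_cases ha : a = 0
    · exact ⟨0, by rw [ha, mul_zero]⟩
    · have ha0 : 0 < ‖a‖ := norm_pos_iff.2 ha
      have hb1 : ‖b‖ = 1 := by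
        have h2 := PadicInt.norm_le_one b
        rw [hb, norm_mul] at h
        have h3 : ‖a‖ * 1 ≤ ‖a‖ * ‖b‖ := by linarith
        exact le_antisymm h2 (le_of_mul_le_mul_left h3 ha0)
      obtain ⟨u, hu⟩ := PadicInt.isUnit_iff.2 hb1
      refine ⟨(u⁻¹ : (ℤ_[p])ˣ), ?_⟩
      rw [hb, ← hu, mul_assoc, Units.mul_inv, mul_one]

theorem avg (G : ℤ_[p] → ℤ_[p]) (c : ℤ_[p]) (hc : c ≠ 0) (hG : ∀ t t', ‖G t - G t'‖ = ‖c‖ * ‖t - t'‖)
    (v : ℤ_[p]) (hv : ‖v‖ = 1) (hv2 : ‖v - 1‖ * ‖G 0‖ ≤ ‖c‖) (h : ℤ_[p] → ℂ) (hh : Measurable h) :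
    ∫ t, h (v * G t) ∂(mu p) = ∫ t, h (G t) ∂(mu p) := by
  have hc0 : 0 < ‖c‖ := norm_pos_iff.2 hc
  have n1 : ∀ t, ∃ b, G t - G 0 = c * b := by
    intro t
    apply dvd_of_norm
    rw [hG, sub_zero]
    exact mul_le_of_le_one_right hc0.le (PadicInt.norm_le_one t)
  have n2 : ∀ t, ∃ b, v * G t - G 0 = c * b := by
    intro t
    apply dvd_of_norm
    have e1 : v * G t - G 0 = (v - 1) * G 0 + v * (G t - G 0) := by ring
    rw [e1]
    refine le_trans (PadicInt.nonarchimedean _ _) (max_le ?_ ?_)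
    · rw [norm_mul]
      exact hv2
    · rw [norm_mul, hv, one_mul, hG, sub_zero]
      exact mul_le_of_le_one_right hc0.le (PadicInt.norm_le_one t)
  choose φ hφ using n1
  choose ψ hψ using n2
  have i1 : Isometry φ := Isometry.of_dist_eq fun t t' => by
    rw [dist_eq_norm, dist_eq_norm]
    have h1 : ‖c * (φ t - φ t')‖ = ‖c‖ * ‖t - t'‖ := by
      rw [mul_sub, ← hφ, ← hφ, sub_sub_sub_cancel_right, hG]
    rw [norm_mul] at h1
    exact mul_left_cancel₀ hc0.ne' h1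
  have i2 : Isometry ψ := Isometry.of_dist_eq fun t t' => by
    rw [dist_eq_norm, dist_eq_norm]
    have h1 : ‖c * (ψ t - ψ t')‖ = ‖c‖ * ‖t - t'‖ := by
      rw [mul_sub, ← hψ, ← hψ, sub_sub_sub_cancel_right, ← mul_sub, norm_mul, hv, one_mul, hG]
    rw [norm_mul] at h1
    exact mul_left_cancel₀ hc0.ne' h1
  have hH : Measurable fun z : ℤ_[p] => h (G 0 + c * z) := by
    refine hh.comp ?_
    have : Continuous fun z : ℤ_[p] => G 0 + c * z := by fun_prop
    exact this.measurable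
  have e1 := int_isom φ i1 _ hH
  have e2 := int_isom ψ i2 _ hH
  simp only [← hφ, ← hψ, add_sub_cancel] at e1 e2
  rw [e1, e2]

/-! ### the polynomial -/

theorem norm_eval_sub (U : Polynomial ℤ_[p]) (x y : ℤ_[p]) : ‖U.eval x - U.eval y‖ ≤ ‖x - y‖ := by
  obtain ⟨q, hq⟩ := U.evalSubFactor x y
  rw [hq, norm_mul]
  exact mul_le_of_le_one_left (norm_nonneg _) (PadicInt.norm_le_one q)

theorem norm_add_of_lt {a b : ℤ_[p]} (h : ‖b‖ < ‖a‖) : ‖a + b‖ = ‖a‖ := by
  rw [PadicInt.norm_add_eq_max_of_ne h.ne', max_eq_left h.le]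

theorem norm_U {U : Polynomial ℤ_[p]} {z : ℤ_[p]} (h : ‖z‖ < ‖U.eval 0‖) : ‖U.eval z‖ = ‖U.eval 0‖ := by
  have h1 := norm_eval_sub U z 0
  rw [sub_zero] at h1
  have h2 : U.eval z = U.eval 0 + (U.eval z - U.eval 0) := by ring
  rw [h2]
  exact norm_add_of_lt (h1.trans_lt h)

/-- the key identity for the norms -/
theorem norm_G {k : ℕ} {U : Polynomial ℤ_[p]} {z η t t' : ℤ_[p]}
    (hz : ‖z‖ < ‖(k : ℤ_[p]) * U.eval 0‖) (hη : ‖η‖ < ‖(k : ℤ_[p]) * U.eval 0‖) (hη1 : ‖η‖ < 1) :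
    ‖(z * (1 + η * t)) ^ k * U.eval (z * (1 + η * t)) -
      (z * (1 + η * t')) ^ k * U.eval (z * (1 + η * t'))‖ =
      ‖z ^ k * ((k : ℤ_[p]) * U.eval 0) * η‖ * ‖t - t'‖ := by
  have unit : ∀ t : ℤ_[p], ‖1 + η * t‖ = 1 := by
    intro t
    rw [norm_add_of_lt, norm_one]
    rw [norm_one, norm_mul]
    exact (mul_le_of_le_one_right (norm_nonneg _) (PadicInt.norm_le_one t)).trans_lt hη1
  have hku : ‖(k : ℤ_[p]) * U.eval 0‖ ≤ ‖U.eval 0‖ := by
    rw [norm_mul]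
    exact mul_le_of_le_one_left (norm_nonneg _) (PadicInt.norm_le_one _)
  obtain ⟨a, ha⟩ : ∃ a : ℤ_[p], a = 1 + η * t := ⟨_, rfl⟩
  obtain ⟨b, hb⟩ : ∃ b : ℤ_[p], b = 1 + η * t' := ⟨_, rfl⟩
  have ha1 : ‖a‖ = 1 := by rw [ha]; exact unit t
  have hb1 : ‖b‖ = 1 := by rw [hb]; exact unit t'
  have hab : a = b + η * (t - t') := by rw [ha, hb]; ring
  rw [← ha, ← hb]
  obtain ⟨s, hs⟩ := Polynomial.powAddExpansion b (η * (t - t')) k
  obtain ⟨q, hq⟩ := U.evalSubFactor (z * a) (z * b)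
  rw [← hab] at hs
  have hU : ‖U.eval (z * a)‖ = ‖U.eval 0‖ := by
    apply norm_U
    rw [norm_mul, ha1, mul_one]
    exact hz.trans_le hku
  have e1 : (z * a) ^ k * U.eval (z * a) - (z * b) ^ k * U.eval (z * b) =
      z ^ k * (η * (t - t')) * ((k : ℤ_[p]) * b ^ (k - 1) * U.eval (z * a) +
        (s * (η * (t - t')) * U.eval (z * a) + b ^ k * (q * z))) := by
    have e2 : U.eval (z * b) = U.eval (z * a) - q * (z * a - z * b) := by rw [← hq]; ring
    have e3 : z * a - z * b = z * (η * (t - t')) := by rw [hab]; ring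
    rw [e2, e3, mul_pow, mul_pow, hs]
    ring
  have n1 : ‖(k : ℤ_[p]) * b ^ (k - 1) * U.eval (z * a)‖ = ‖(k : ℤ_[p]) * U.eval 0‖ := by
    rw [norm_mul, norm_mul, norm_pow, hb1, one_pow, mul_one, hU, norm_mul]
  have n2 : ‖s * (η * (t - t')) * U.eval (z * a) + b ^ k * (q * z)‖ < ‖(k : ℤ_[p]) * U.eval 0‖ := by
    refine lt_of_le_of_lt (PadicInt.nonarchimedean _ _) (max_lt ?_ ?_)
    · refine lt_of_le_of_lt ?_ hη
      rw [norm_mul, norm_mul, norm_mul]
      have h1 := PadicInt.norm_le_one s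
      have h2 := PadicInt.norm_le_one (t - t')
      have h3 := PadicInt.norm_le_one (U.eval (z * a))
      have h4 : ‖η‖ * ‖t - t'‖ ≤ ‖η‖ := mul_le_of_le_one_right (norm_nonneg _) h2
      have h5 : ‖s‖ * (‖η‖ * ‖t - t'‖) ≤ ‖η‖ :=
        (mul_le_of_le_one_left (by positivity) h1).trans h4
      exact (mul_le_of_le_one_right (by positivity) h3).trans h5
    · refine lt_of_le_of_lt ?_ hz
      rw [norm_mul, norm_mul]
      have h1 := PadicInt.norm_le_one (b ^ k)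
      have h2 := PadicInt.norm_le_one q
      exact (mul_le_of_le_one_left (by positivity) h1).trans
        (mul_le_of_le_one_left (norm_nonneg _) h2)
  rw [e1, norm_mul, norm_add_of_lt (by rw [n1]; exact n2), n1, norm_mul (z ^ k) (η * (t - t')),
    norm_mul η (t - t'), norm_mul (z ^ k * ((k : ℤ_[p]) * U.eval 0)) η,
    norm_mul (z ^ k) ((k : ℤ_[p]) * U.eval 0)]
  ring

theorem core (p : ℕ) [Fact p.Prime] (k : ℕ) (U : Polynomial ℤ_[p]) (hk : 1 ≤ k) (hU : U.eval 0 ≠ 0) :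
    ∃ r : ℕ, ∀ {Y : Type} [MeasurableSpace Y] (ν : Measure Y)
    [IsProbabilityMeasure ν] (φ : Y → ℤ_[p]), Measurable φ → (∀ y, ‖φ y‖ ≤ ((p : ℝ)⁻¹) ^ r) →
    (∃ N : ℕ, ∀ v : ℤ_[p], ‖v - 1‖ ≤ ((p : ℝ)⁻¹) ^ N → ∀ h : ℤ_[p] → ℂ,
      Measurable h → (∃ B : ℝ, ∀ z, ‖h z‖ ≤ B) → ∫ y, h (v * φ y) ∂ν = ∫ y, h (φ y) ∂ν) →
    ∃ N : ℕ, ∀ v : ℤ_[p], ‖v - 1‖ ≤ ((p : ℝ)⁻¹) ^ N → ∀ h : ℤ_[p] → ℂ,
      Measurable h → (∃ B : ℝ, ∀ z, ‖h z‖ ≤ B) →
      ∫ y, h (v * (φ y ^ k * U.eval (φ y))) ∂ν = ∫ y, h (φ y ^ k * U.eval (φ y)) ∂ν := by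
  have hp1 : (1 : ℝ) < p := by exact_mod_cast (Fact.out : p.Prime).one_lt
  have hp0 : (0 : ℝ) < p := by linarith
  have hpi0 : 0 < (p : ℝ)⁻¹ := inv_pos.2 hp0
  have hpi1 : (p : ℝ)⁻¹ < 1 := inv_lt_one_of_one_lt₀ hp1
  have hk0 : (k : ℤ_[p]) ≠ 0 := by
    have : k ≠ 0 := by omega
    exact_mod_cast this
  have hku : 0 < ‖(k : ℤ_[p]) * U.eval 0‖ := norm_pos_iff.2 (mul_ne_zero hk0 hU)
  have hku1 : ‖(k : ℤ_[p]) * U.eval 0‖ ≤ 1 := PadicInt.norm_le_one _
  obtain ⟨r, hr⟩ := exists_pow_lt_of_lt_one hku hpi1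
  refine ⟨r, ?_⟩
  intro Y _ ν _ φ hφ hφr hN
  obtain ⟨N, hN⟩ := hN
  obtain ⟨N', hN'⟩ : ∃ N' : ℕ, N' = max N r := ⟨_, rfl⟩
  have hNN : N ≤ N' := by rw [hN']; exact le_max_left _ _
  have hrN : r ≤ N' := by rw [hN']; exact le_max_right _ _
  obtain ⟨η, hη⟩ : ∃ η : ℤ_[p], η = (p : ℤ_[p]) ^ N' := ⟨_, rfl⟩
  have nη : ‖η‖ = ((p : ℝ)⁻¹) ^ N' := by
    rw [hη, norm_pow, PadicInt.norm_p]
  have nη0 : 0 < ‖η‖ := by rw [nη]; positivity
  have nη1 : ‖η‖ < ‖(k : ℤ_[p]) * U.eval 0‖ := by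
    rw [nη]
    exact (pow_le_pow_of_le_one hpi0.le hpi1.le hrN).trans_lt hr
  have nη2 : ‖η‖ < 1 := nη1.trans_le hku1
  refine ⟨N' + r, fun v hv h hh hB => ?_⟩
  obtain ⟨B, hB⟩ := hB
  -- `v` is a unit
  have hv0 : ‖v - 1‖ ≤ ‖η‖ * ‖(k : ℤ_[p]) * U.eval 0‖ := by
    refine hv.trans ?_
    rw [pow_add, ← nη]
    exact mul_le_mul_of_nonneg_left hr.le (norm_nonneg _)
  have hv1 : ‖v‖ = 1 := by
    have e1 : v = 1 + (v - 1) := by ring
    rw [e1, norm_add_of_lt, norm_one]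
    rw [norm_one]
    refine hv0.trans_lt ?_
    calc ‖η‖ * ‖(k : ℤ_[p]) * U.eval 0‖ ≤ ‖η‖ * 1 := mul_le_mul_of_nonneg_left hku1 (norm_nonneg _)
      _ < 1 := by rw [mul_one]; exact nη2
  -- the function
  obtain ⟨W, hW⟩ : ∃ W : ℤ_[p] → ℤ_[p], W = fun z => z ^ k * U.eval z := ⟨_, rfl⟩
  have hWc : Continuous W := by
    rw [hW]
    exact (continuous_pow k).mul U.continuous
  have hWm : Measurable W := hWc.measurable
  have hW0 : W 0 = 0 := by
    rw [hW]
    change (0 : ℤ_[p]) ^ k * U.eval 0 = 0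
    rw [zero_pow (by omega), zero_mul]
  -- the averages
  have main : ∀ v : ℤ_[p], ∫ y, h (v * W (φ y)) ∂ν =
      ∫ y, (∫ t, h (v * W (φ y * (1 + η * t))) ∂(mu p)) ∂ν := by
    intro v
    have hm2 : Measurable fun z : ℤ_[p] => v * W z := by
      have : Continuous fun z : ℤ_[p] => v * W z := continuous_const.mul hWc
      exact this.measurable
    have hm : Measurable fun z : ℤ_[p] => h (v * W z) := hh.comp hm2
    have h1 : ∀ t : ℤ_[p], ∫ y, h (v * W (φ y * (1 + η * t))) ∂ν = ∫ y, h (v * W (φ y)) ∂ν := by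
      intro t
      have h2 := hN (1 + η * t) (by
        rw [add_sub_cancel_left, norm_mul, nη]
        refine (mul_le_of_le_one_right (by positivity) (PadicInt.norm_le_one t)).trans ?_
        exact pow_le_pow_of_le_one hpi0.le hpi1.le hNN) _ hm ⟨B, fun z => hB _⟩
      simpa only [mul_comm] using h2
    have h3 : ∫ t, (∫ y, h (v * W (φ y * (1 + η * t))) ∂ν) ∂(mu p) = ∫ y, h (v * W (φ y)) ∂ν := by
      simp only [h1]
      rw [integral_const]
      simp
    rw [← h3, integral_integral_swap]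
    have hjoint : Measurable fun x : ℤ_[p] × Y => φ x.2 * (1 + η * x.1) := by
      have g1 : Measurable fun x : ℤ_[p] × Y => φ x.2 := hφ.comp measurable_snd
      have g2 : Measurable fun t : ℤ_[p] => 1 + η * t := by
        have : Continuous fun t : ℤ_[p] => 1 + η * t := by fun_prop
        exact this.measurable
      exact g1.mul (g2.comp measurable_fst)
    have hF : Measurable (Function.uncurry fun (t : ℤ_[p]) (y : Y) => h (v * W (φ y * (1 + η * t)))) :=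
      hm.comp hjoint
    refine Integrable.of_bound hF.aestronglyMeasurable B ?_
    exact Filter.Eventually.of_forall fun x => hB _
  have m1 := main v
  have m2 := main 1
  simp only [one_mul] at m2
  have key : ∀ y, ∫ t, h (v * W (φ y * (1 + η * t))) ∂(mu p) = ∫ t, h (W (φ y * (1 + η * t))) ∂(mu p) := by
    intro y
    by_cases hy : φ y = 0
    · simp only [hy, zero_mul, hW0, mul_zero]
    · have hz : ‖φ y‖ < ‖(k : ℤ_[p]) * U.eval 0‖ := (hφr y).trans_lt hr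
      have hz0 : 0 < ‖φ y‖ := norm_pos_iff.2 hy
      refine avg (fun t => W (φ y * (1 + η * t))) (φ y ^ k * ((k : ℤ_[p]) * U.eval 0) * η) ?_ ?_ v hv1 ?_ h hh
      · refine mul_ne_zero (mul_ne_zero (pow_ne_zero _ hy) (mul_ne_zero hk0 hU)) ?_
        exact norm_pos_iff.1 nη0
      · intro t t'
        rw [hW]
        exact norm_G hz nη1 nη2
      · rw [mul_zero, add_zero, mul_one, hW]
        change ‖v - 1‖ * ‖φ y ^ k * U.eval (φ y)‖ ≤ _
        rw [norm_mul, norm_mul, norm_mul]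
        have n1 : ‖U.eval (φ y)‖ ≤ 1 := PadicInt.norm_le_one _
        calc ‖v - 1‖ * (‖φ y ^ k‖ * ‖U.eval (φ y)‖) ≤
              (‖η‖ * ‖(k : ℤ_[p]) * U.eval 0‖) * (‖φ y ^ k‖ * 1) := by
              apply mul_le_mul hv0 (mul_le_mul_of_nonneg_left n1 (norm_nonneg _)) (by positivity)
                (by positivity)
          _ = ‖φ y ^ k‖ * ‖(k : ℤ_[p]) * U.eval 0‖ * ‖η‖ := by ring
  simp only [key] at m1
  rw [← m2, hW] at m1
  exact m1

end Pool.Agent.N82.RF
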