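import Pool.Agent.N652.OM.Stm

/-!
# Project OM, leaf DET: the elements of the group have, up to a power of `h`, a symbol of
determinant one.
-/

set_option autoImplicit false

namespace Pool.Agent.N82.OM_DET

open Pool.Agent.N44.NS (el)
open Pool.Agent.N652.OM

noncomputable section

theorem Sy_zero : Sy (0 : MM Bool) 0 := by
  have h := (Sy.one (B := Bool)).smul (0 : F)
  simpa using h

theorem Sy_neg {x : MM Bool} {p : Bool → LaurentPolynomial F} (h : Sy x p) : Sy (-x) (-p) := by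
  have h1 := h.smul (-1 : F)
  have h2 : (-1 : F) • x = -x := by
    refine LinearMap.ext fun v => ?_
    rw [LinearMap.smul_apply, LinearMap.neg_apply, neg_smul, one_smul]
  have h3 : (-1 : F) • p = -p := by
    rw [neg_smul, one_smul]
  rwa [h2, h3] at h1

/-- the entries of `A` have the symbols `P` -/
def SM (A : Matrix (Fin 3) (Fin 3) (MM Bool))
    (P : Matrix (Fin 3) (Fin 3) (Bool → LaurentPolynomial F)) : Prop :=
  ∀ i j, Sy (A i j) (P i j)

theorem SM.mul {A B : Matrix (Fin 3) (Fin 3) (MM Bool)}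
    {P Q : Matrix (Fin 3) (Fin 3) (Bool → LaurentPolynomial F)} (hA : SM A P) (hB : SM B Q) :
    SM (A * B) (P * Q) := by
  intro i j
  rw [Matrix.mul_apply, Matrix.mul_apply, Fin.sum_univ_three, Fin.sum_univ_three]
  exact (((hA i 0).mul (hB 0 j)).add ((hA i 1).mul (hB 1 j))).add ((hA i 2).mul (hB 2 j))

theorem SM_el (i j : Fin 3) (h : i ≠ j) {a : MM Bool} {p : Bool → LaurentPolynomial F}
    (ha : Sy a p) : SM (el i j h a).1 (Matrix.transvection i j p) := by
  intro k l
  show Sy ((1 + Matrix.single i j a : Matrix (Fin 3) (Fin 3) (MM Bool)) k l)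
    ((1 + Matrix.single i j p : Matrix (Fin 3) (Fin 3) (Bool → LaurentPolynomial F)) k l)
  rw [Matrix.add_apply, Matrix.add_apply]
  refine Sy.add ?_ ?_
  · by_cases hkl : k = l
    · subst hkl
      rw [Matrix.one_apply_eq, Matrix.one_apply_eq]
      exact Sy.one
    · rw [Matrix.one_apply_ne hkl, Matrix.one_apply_ne hkl]
      exact Sy_zero
  · by_cases hc : i = k ∧ j = l
    · obtain ⟨rfl, rfl⟩ := hc
      rw [Matrix.single_apply_same, Matrix.single_apply_same]
      exact ha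
    · rw [Matrix.single_apply_of_ne _ _ _ _ _ hc, Matrix.single_apply_of_ne _ _ _ _ _ hc]
      exact Sy_zero

theorem el_inv {A : Type} [Ring A] (i j : Fin 3) (h : i ≠ j) (a : A) :
    (el i j h a)⁻¹ = el i j h (-a) := by
  apply Units.ext
  show (1 - Matrix.single i j a : Matrix (Fin 3) (Fin 3) A) = 1 + Matrix.single i j (-a)
  refine Matrix.ext fun k l => ?_
  rw [Matrix.sub_apply, Matrix.add_apply]
  by_cases hc : i = k ∧ j = l
  · obtain ⟨rfl, rfl⟩ := hc
    rw [Matrix.single_apply_same, Matrix.single_apply_same, sub_eq_add_neg]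
  · rw [Matrix.single_apply_of_ne _ _ _ _ _ hc, Matrix.single_apply_of_ne _ _ _ _ _ hc,
      sub_zero, add_zero]

/-- the property to be proved -/
def Good (g : (Matrix (Fin 3) (Fin 3) (MM Bool))ˣ) : Prop :=
  ∃ (n : ℤ) (P : Matrix (Fin 3) (Fin 3) (Bool → LaurentPolynomial F)),
    SM (g * hG ^ (-n)).1 P ∧ P.det = 1

theorem Good.el_mul {g : (Matrix (Fin 3) (Fin 3) (MM Bool))ˣ} (hg : Good g) (i j : Fin 3)
    (h : i ≠ j) {a : MM Bool} {p : Bool → LaurentPolynomial F} (ha : Sy a p) :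
    Good (el i j h a * g) := by
  obtain ⟨n, P, hP, hd⟩ := hg
  refine ⟨n, Matrix.transvection i j p * P, ?_, ?_⟩
  · rw [mul_assoc, Units.val_mul]
    exact (SM_el i j h ha).mul hP
  · rw [Matrix.det_mul, Matrix.det_transvection_of_ne i j h, hd, one_mul]

theorem hG_val : (hG : (Matrix (Fin 3) (Fin 3) (MM Bool))ˣ).1
    = Matrix.diagonal fun _ => (hM : MM Bool) := rfl

theorem hG_inv_val : ((hG⁻¹ : (Matrix (Fin 3) (Fin 3) (MM Bool))ˣ)).1
    = Matrix.diagonal fun _ => ((hM⁻¹ : (MM Bool)ˣ) : MM Bool) := rfl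

theorem Good.h_mul (hC : S_CONJ) {g : (Matrix (Fin 3) (Fin 3) (MM Bool))ˣ} (hg : Good g) :
    Good (hG * g) := by
  obtain ⟨n, P, hP, hd⟩ := hg
  refine ⟨n + 1, P, ?_, hd⟩
  have e : hG * g * hG ^ (-(n + 1)) = hG * (g * hG ^ (-n)) * hG⁻¹ := by
    rw [neg_add, zpow_add, zpow_neg_one]
    group
  rw [e]
  intro k l
  rw [Units.val_mul, Units.val_mul, hG_val, hG_inv_val, Matrix.mul_diagonal,
    Matrix.diagonal_mul]
  exact (hC _ _ (hP k l)).1

theorem Good.hinv_mul (hC : S_CONJ) {g : (Matrix (Fin 3) (Fin 3) (MM Bool))ˣ} (hg : Good g) :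
    Good (hG⁻¹ * g) := by
  obtain ⟨n, P, hP, hd⟩ := hg
  refine ⟨n - 1, P, ?_, hd⟩
  have e : hG⁻¹ * g * hG ^ (-(n - 1)) = hG⁻¹ * (g * hG ^ (-n)) * hG := by
    have : (-(n - 1) : ℤ) = -n + 1 := by ring
    rw [this, zpow_add, zpow_one]
    group
  rw [e]
  intro k l
  rw [Units.val_mul, Units.val_mul, hG_val, hG_inv_val, Matrix.mul_diagonal,
    Matrix.diagonal_mul]
  exact (hC _ _ (hP k l)).2

/-- the generators -/
def gens : Set (Matrix (Fin 3) (Fin 3) (MM Bool))ˣ :=
  {g | ∃ b : Bool, ∃ (i j : Fin 3) (h : i ≠ j), ∃ a ∈ RR b, g = el i j h a} ∪ {hG}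

theorem Gam_le : Gam ≤ Subgroup.closure gens := by
  have h1 : ∀ b, EE (RR b) ≤ Subgroup.closure gens := by
    intro b
    refine Subgroup.closure_mono ?_
    rintro g ⟨i, j, h, a, ha, rfl⟩
    exact Or.inl ⟨b, i, j, h, a, ha, rfl⟩
  refine sup_le (sup_le (h1 false) (h1 true)) ?_
  rw [Subgroup.zpowers_le]
  exact Subgroup.subset_closure (Or.inr rfl)

theorem main (hC : S_CONJ) : S_DET := by
  intro g hg
  have hg' := Gam_le hg
  clear hg
  have key : Good g := by
    induction hg' using Subgroup.closure_induction_left with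
    | one =>
      refine ⟨0, 1, ?_, Matrix.det_one⟩
      rw [neg_zero, zpow_zero, one_mul]
      intro k l
      show Sy ((1 : Matrix (Fin 3) (Fin 3) (MM Bool)) k l) _
      by_cases hkl : k = l
      · subst hkl
        rw [Matrix.one_apply_eq, Matrix.one_apply_eq]
        exact Sy.one
      · rw [Matrix.one_apply_ne hkl, Matrix.one_apply_ne hkl]
        exact Sy_zero
    | mul_left x hx y hy ih =>
      rcases hx with ⟨b, i, j, h, a, ha, rfl⟩ | hx
      · obtain ⟨⟨p, hp⟩, -⟩ := ha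
        exact ih.el_mul i j h hp
      · rw [Set.mem_singleton_iff] at hx
        subst hx
        exact ih.h_mul hC
    | inv_mul_cancel x hx y hy ih =>
      rcases hx with ⟨b, i, j, h, a, ha, rfl⟩ | hx
      · obtain ⟨⟨p, hp⟩, -⟩ := ha
        rw [el_inv]
        exact ih.el_mul i j h (Sy_neg hp)
      · rw [Set.mem_singleton_iff] at hx
        subst hx
        exact ih.hinv_mul hC
  obtain ⟨n, P, hP, hd⟩ := key
  exact ⟨n, P, hP, hd⟩

end

end Pool.Agent.N82.OM_DET
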