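import Pool.Agent.N870.H.Stm8
import Pool.Agent.W307.SE.FamG

/-!
# Project H (helper870), part FAMK: shifted coordinates for the powers (helper82)

After `Pool.Agent.W307.SE.famg_of` (helper307).
-/

set_option autoImplicit false

namespace Pool.Agent.N82.H

open Finset Pool.Agent.W262.RK Pool.Agent.W307.RT Pool.Agent.W307.RS Pool.Agent.W397.RS

open Pool.Agent.W307.SE

open Classical in
theorem t_FAMK (h : Pool.Agent.N870.H.S_AVGK) : Pool.Agent.N870.H.S_FAMK := by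
  intro k E hE J _ _ cls a μ α β hFm hNB q M N hM hN B
  have hcls := hFm.cl
  have hμ := hFm.mu
  have hid := hFm.rel
  obtain ⟨C, hC⟩ := h k E hE J cls a μ α β hFm hNB (B + 2)
  refine ⟨|C| * ((q : ℝ) + 1) ^ 2 * (1 + Real.log ((q : ℝ) + 1)) ^ E, ?_⟩
  intro N1 N2 X hX hN1 hN2
  set X' : ℕ := (q + 1) * X with hX'
  have hXX' : X ≤ X' := Nat.le_mul_of_pos_left X (Nat.succ_pos q)
  have hX'1 : 1 ≤ X' := hX.trans hXX'
  set N2' : ℤ := N2 - q * N1 - q * X with hN2'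
  have hb1 : N1.natAbs ≤ X' ^ (B + 2) :=
    hN1.trans ((Nat.pow_le_pow_left hXX' B).trans (Nat.pow_le_pow_right hX'1 (by omega)))
  have hb2 : N2'.natAbs ≤ X' ^ (B + 2) := size_aux q X B hX N1 N2 hN1 hN2
  have key := hC N1 N2' X' hX'1 hb1 hb2
  set H : ℕ × ℕ → ℝ := fun t => if IsCoprime (N1 + (t.1 : ℤ)) (N2' + (t.2 : ℤ)) ∧
      ∀ j, fv α β (N1 + (t.1 : ℤ)) (N2' + (t.2 : ℤ)) j ≠ 0 then
    SN (FM cls a μ (fv α β (N1 + (t.1 : ℤ)) (N2' + (t.2 : ℤ))) 0)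
        (FM cls a μ (fv α β (N1 + (t.1 : ℤ)) (N2' + (t.2 : ℤ))) 1) ^ k else 0 with hH
  have hH0 : ∀ t, 0 ≤ H t := by
    intro t
    rw [hH]
    simp only
    split_ifs
    · exact pow_nonneg (SN_nonneg _ _) k
    · exact le_rfl
  set φ : ℕ × ℕ → ℕ × ℕ := fun t => (t.1, t.2 + q * (X - t.1)) with hφ
  have hpt : ∀ t ∈ Icc 1 X ×ˢ Icc 1 X,
      GGg (fun A B => SN A B ^ k) M N (N1 + (t.1 : ℤ), N2 + (t.2 : ℤ)) ≤ H (φ t) := by
    intro t ht
    rw [mem_product, mem_Icc, mem_Icc] at ht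
    have hv : N2' + ((φ t).2 : ℤ) = (N2 + (t.2 : ℤ)) - q * (N1 + (t.1 : ℤ)) := by
      rw [hφ, hN2']
      simp only
      push_cast [Nat.cast_sub ht.1.2]
      ring
    have hu : ((φ t).1 : ℤ) = (t.1 : ℤ) := rfl
    have hvq : N2' + ((φ t).2 : ℤ) + q * (N1 + (t.1 : ℤ)) = N2 + (t.2 : ℤ) := by
      rw [hv]; ring
    have hcop : IsCoprime (N1 + (t.1 : ℤ)) (N2' + ((φ t).2 : ℤ)) ↔
        IsCoprime (N1 + (t.1 : ℤ)) (N2 + (t.2 : ℤ)) := by
      have : N2' + ((φ t).2 : ℤ) = N2 + (t.2 : ℤ) + (-(q : ℤ)) * (N1 + (t.1 : ℤ)) := by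
        rw [hv]; ring
      rw [this]
      exact IsCoprime.add_mul_right_right_iff
    by_cases hc : IsCoprime (N1 + (t.1 : ℤ)) (N2 + (t.2 : ℤ)) ∧
        M (N1 + (t.1 : ℤ)) (N2 + (t.2 : ℤ)) ≠ 0 ∧ N (N1 + (t.1 : ℤ)) (N2 + (t.2 : ℤ)) ≠ 0 ∧
        M (N1 + (t.1 : ℤ)) (N2 + (t.2 : ℤ)) ≠ N (N1 + (t.1 : ℤ)) (N2 + (t.2 : ℤ))
    · have b0 := hM (N1 + (t.1 : ℤ)) (N2' + ((φ t).2 : ℤ))
      have b1 := hN (N1 + (t.1 : ℤ)) (N2' + ((φ t).2 : ℤ))
      have b2 := hid (N1 + (t.1 : ℤ)) (N2' + ((φ t).2 : ℤ))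
      rw [hvq] at b0 b1
      have hcond : IsCoprime (N1 + ((φ t).1 : ℤ)) (N2' + ((φ t).2 : ℤ)) ∧
          ∀ j, fv α β (N1 + ((φ t).1 : ℤ)) (N2' + ((φ t).2 : ℤ)) j ≠ 0 := by
        refine ⟨hcop.mpr hc.1, ?_⟩
        apply fv_ne_zero hcls hμ (a := a)
        intro k
        fin_cases k
        · change FM cls a μ _ 0 ≠ 0
          rw [hu, b0]
          exact neg_ne_zero.2 hc.2.1
        · change FM cls a μ _ 1 ≠ 0
          rw [hu, b1]
          exact neg_ne_zero.2 hc.2.2.1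
        · change FM cls a μ _ 2 ≠ 0
          rw [hu, ← b2, b0, b1]
          intro h5
          exact hc.2.2.2 (by linarith)
      have e1 : GGg (fun A B => SN A B ^ k) M N (N1 + (t.1 : ℤ), N2 + (t.2 : ℤ)) =
          SN (-(M (N1 + (t.1 : ℤ)) (N2 + (t.2 : ℤ))))
            (-(N (N1 + (t.1 : ℤ)) (N2 + (t.2 : ℤ)))) ^ k := by
        unfold GGg
        rw [if_pos hc]
      have e2 : H (φ t) = SN
          (FM cls a μ (fv α β (N1 + ((φ t).1 : ℤ)) (N2' + ((φ t).2 : ℤ))) 0)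
          (FM cls a μ (fv α β (N1 + ((φ t).1 : ℤ)) (N2' + ((φ t).2 : ℤ))) 1) ^ k := by
        rw [hH]
        simp only
        rw [if_pos hcond]
      rw [e1, e2, hu, b0, b1]
    · have e1 : GGg (fun A B => SN A B ^ k) M N (N1 + (t.1 : ℤ), N2 + (t.2 : ℤ)) = 0 := by
        unfold GGg
        rw [if_neg hc]
      rw [e1]
      exact hH0 _
  have hinj : Set.InjOn φ (Icc 1 X ×ˢ Icc 1 X : Finset (ℕ × ℕ)) := by
    intro t _ t' _ htt
    rw [hφ] at htt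
    simp only [Prod.mk.injEq] at htt
    obtain ⟨h1, h2⟩ := htt
    rw [h1] at h2
    exact Prod.ext h1 (by omega)
  have hmaps : (Icc 1 X ×ˢ Icc 1 X : Finset (ℕ × ℕ)).image φ ⊆ Icc 1 X' ×ˢ Icc 1 X' := by
    intro t' ht'
    obtain ⟨t, ht, rfl⟩ := mem_image.mp ht'
    rw [mem_product, mem_Icc, mem_Icc] at ht
    rw [mem_product, mem_Icc, mem_Icc, hφ]
    simp only
    have h3 : q * (X - t.1) ≤ q * X := Nat.mul_le_mul_left q (Nat.sub_le _ _)
    have h4 : X' = q * X + X := by rw [hX']; ring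
    refine ⟨⟨ht.1.1, ht.1.2.trans hXX'⟩, ?_, ?_⟩
    · omega
    · omega
  calc ∑ t ∈ Icc 1 X ×ˢ Icc 1 X, GGg (fun A B => SN A B ^ k) M N (N1 + (t.1 : ℤ), N2 + (t.2 : ℤ))
      ≤ ∑ t ∈ Icc 1 X ×ˢ Icc 1 X, H (φ t) := sum_le_sum hpt
    _ = ∑ t' ∈ (Icc 1 X ×ˢ Icc 1 X : Finset (ℕ × ℕ)).image φ, H t' := (sum_image hinj).symm
    _ ≤ ∑ t' ∈ Icc 1 X' ×ˢ Icc 1 X', H t' :=
        sum_le_sum_of_subset_of_nonneg hmaps (fun t _ _ => hH0 t)
    _ ≤ C * ((X' : ℝ) ^ 2 * (1 + Real.log X') ^ E) := by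
        rw [hH]
        simp only
        rw [← sum_filter]
        exact key
    _ ≤ |C| * ((q : ℝ) + 1) ^ 2 * (1 + Real.log ((q : ℝ) + 1)) ^ E *
        (X ^ 2 * (1 + Real.log X) ^ E) := by
        have hX1 : (1 : ℝ) ≤ X := by exact_mod_cast hX
        have hX0 : (0 : ℝ) < X := by linarith
        have hq0 : (0 : ℝ) ≤ q := Nat.cast_nonneg q
        have hq1 : (0 : ℝ) < (q : ℝ) + 1 := by linarith
        have l1 : 0 ≤ Real.log X := Real.log_nonneg hX1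
        have l2 : 0 ≤ Real.log ((q : ℝ) + 1) := Real.log_nonneg (by linarith)
        have e1 : (X' : ℝ) = ((q : ℝ) + 1) * X := by
          rw [hX']
          push_cast
          ring
        have l3 : Real.log X' = Real.log ((q : ℝ) + 1) + Real.log X := by
          rw [e1, Real.log_mul hq1.ne' hX0.ne']
        have l4 : 1 + Real.log X' ≤ (1 + Real.log ((q : ℝ) + 1)) * (1 + Real.log X) := by
          rw [l3]
          nlinarith
        have l5 : (1 + Real.log X') ^ E ≤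
            (1 + Real.log ((q : ℝ) + 1)) ^ E * (1 + Real.log X) ^ E := by
          rw [← Real.mul_rpow (by linarith) (by linarith)]
          exact Real.rpow_le_rpow (by linarith) l4 hE
        have l6 : 0 ≤ (1 + Real.log X') ^ E := Real.rpow_nonneg (by linarith) _
        calc C * ((X' : ℝ) ^ 2 * (1 + Real.log X') ^ E) ≤
              |C| * ((X' : ℝ) ^ 2 * (1 + Real.log X') ^ E) :=
              mul_le_mul_of_nonneg_right (le_abs_self C) (by positivity)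
          _ ≤ |C| * ((X' : ℝ) ^ 2 * ((1 + Real.log ((q : ℝ) + 1)) ^ E * (1 + Real.log X) ^ E)) :=
              mul_le_mul_of_nonneg_left (mul_le_mul_of_nonneg_left l5 (by positivity)) (abs_nonneg C)
          _ = _ := by
              rw [e1]
              ring

end Pool.Agent.N82.H
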