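import Pool.Agent.N906.RN.Stm
import Pool.Agent.Y594.NT.ThrFin

/-! FINRC: pairwise coprime tuples of all heights up to `X ^ A`. -/

set_option autoImplicit false

namespace Pool.Agent.N82.RN

open Finset Filter Topology Pool.Agent.N906.NT Pool.Agent.N906.RN

theorem rr_eq {n : ℕ} (x : Fin n → ℤ) : rr (ab x) = Pool.Agent.H785R2.ABC.rad (∏ i, (x i).natAbs) := rfl

theorem one_le_rr {n : ℕ} (D : Fin n → ℕ) : 1 ≤ rr D :=
  Finset.prod_pos fun _ hp => (Nat.prime_of_mem_primeFactors hp).pos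

theorem abs_cast (a : ℤ) : |(a : ℝ)| = ((a.natAbs : ℕ) : ℝ) := by
  rw [Nat.cast_natAbs, Int.cast_abs]

/-- pairwise coprime tuples: a prime divides at most one coordinate -/
theorem tp_of_cop {n : ℕ} {x : Fin n → ℤ} (h0 : ∀ i, x i ≠ 0)
    (hc : ∀ i j, i ≠ j → IsCoprime (x i) (x j)) : Tp (Dl n 1) (ab x) := by
  refine ⟨fun i => Nat.one_le_iff_ne_zero.2 (Int.natAbs_ne_zero.2 (h0 i)), fun p hp => ?_⟩
  simp only [Dl, mem_filter, mem_univ, true_and]
  rw [Finset.card_le_one]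
  intro i hi j hj
  by_contra hij
  have hi' : p ∣ (x i).natAbs := (Finset.mem_filter.1 hi).2
  have hj' : p ∣ (x j).natAbs := (Finset.mem_filter.1 hj).2
  have h1 := Int.isCoprime_iff_nat_coprime.1 (hc i j hij)
  exact Nat.not_coprime_of_dvd_of_dvd hp.one_lt hi' hj' h1

theorem cop_of_tp {n : ℕ} {x : Fin n → ℤ} (h : Tp (Dl n 1) (ab x)) (i j : Fin n) (hij : i ≠ j) :
    IsCoprime (x i) (x j) := by
  rw [Int.isCoprime_iff_nat_coprime, Nat.coprime_iff_gcd_eq_one]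
  by_contra hg
  obtain ⟨p, hp, hpd⟩ := Nat.exists_prime_and_dvd hg
  have h1 := h.2 p hp
  simp only [Dl, mem_filter, mem_univ, true_and] at h1
  rw [Finset.card_le_one] at h1
  apply hij
  apply h1
  · exact Finset.mem_filter.2 ⟨mem_univ _, hpd.trans (Nat.gcd_dvd_left _ _)⟩
  · exact Finset.mem_filter.2 ⟨mem_univ _, hpd.trans (Nat.gcd_dvd_right _ _)⟩

theorem prod_rad {n : ℕ} {x : Fin n → ℤ} (h0 : ∀ i, x i ≠ 0)
    (hc : ∀ i j, i ≠ j → IsCoprime (x i) (x j)) :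
    ∏ i, Pool.Agent.H785R2.ABC.rad (x i).natAbs = rr (ab x) := by
  unfold rr pr ab Pool.Agent.H785R2.ABC.rad
  have h1 : (∏ i, (x i).natAbs).primeFactors = univ.biUnion fun i => (x i).natAbs.primeFactors := by
    ext p
    simp only [Nat.mem_primeFactors, mem_biUnion, Finset.mem_univ, true_and]
    constructor
    · rintro ⟨hp, hd, -⟩
      obtain ⟨i, -, hi⟩ := (Nat.Prime.prime hp).exists_mem_finset_dvd hd
      exact ⟨i, hp, hi, Int.natAbs_ne_zero.2 (h0 i)⟩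
    · rintro ⟨i, hp, hd, -⟩
      exact ⟨hp, hd.trans (Finset.dvd_prod_of_mem _ (Finset.mem_univ i)),
        Finset.prod_ne_zero_iff.2 fun j _ => Int.natAbs_ne_zero.2 (h0 j)⟩
  rw [h1, Finset.prod_biUnion]
  intro i _ j _ hij
  exact (Int.isCoprime_iff_nat_coprime.1 (hc i j hij)).disjoint_primeFactors

theorem gcd_one {n : ℕ} (hn : 3 ≤ n) {x : Fin n → ℤ}
    (hc : ∀ i j, i ≠ j → IsCoprime (x i) (x j)) : univ.gcd x = 1 := by
  have h1 : univ.gcd x ∣ x ⟨0, by omega⟩ := Finset.gcd_dvd (mem_univ _)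
  have h2 : univ.gcd x ∣ x ⟨1, by omega⟩ := Finset.gcd_dvd (mem_univ _)
  have h3 := (hc ⟨0, by omega⟩ ⟨1, by omega⟩ (by simp)).isUnit_of_dvd' h1 h2
  rw [← Finset.normalize_gcd]
  exact normalize_eq_one.2 h3

theorem adm {n : ℕ} (hn : 3 ≤ n) {M A X : ℝ} {x : Fin n → ℤ} (hx : x ∈ Rc n M A X) :
    Pool.Agent.Y594.NT.Adm A X x := by
  obtain ⟨h1, h2, h3, h4, h5, h6⟩ := hx
  refine ⟨gcd_one hn h3, h1, h2, fun i => ?_, ?_⟩
  · rw [← abs_cast]
    exact h6 i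
  · rw [← Nat.cast_prod, prod_rad h2 h3]
    exact h4

theorem fin_rc (n : ℕ) (M A X : ℝ) : (Rc n M A X).Finite := by
  refine Set.Finite.subset (Finset.finite_toSet
    (Fintype.piFinset fun _ : Fin n => Icc (-(⌊X ^ A⌋₊ : ℤ)) ⌊X ^ A⌋₊)) ?_
  rintro x ⟨-, -, -, -, -, hB⟩
  rw [mem_coe, Fintype.mem_piFinset]
  intro j
  have h3 : (x j).natAbs ≤ ⌊X ^ A⌋₊ := by
    apply Nat.le_floor
    rw [← abs_cast]
    exact hB j
  rw [mem_Icc]
  omega

theorem ra_sub {n : ℕ} {M M' A X : ℝ} (hM0 : 0 ≤ M') (hM1 : M' ≤ A) : Ra n 1 M M' X ⊆ Rc n M A X := by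
  rintro x ⟨h1, h2, h3, h4, h5, h6⟩
  refine ⟨h1, h2, cop_of_tp h3, h4, h5, fun i => (h6 i).trans ?_⟩
  have h7 : (1 : ℝ) ≤ rr (ab x) := by exact_mod_cast one_le_rr _
  calc (rr (ab x) : ℝ) ^ M' ≤ X ^ M' := Real.rpow_le_rpow (by linarith) h4 hM0
    _ ≤ X ^ A := Real.rpow_le_rpow_of_exponent_le (h7.trans h4) hM1

/-- the tuples of `Rc` above the window -/
theorem rc_sub {n : ℕ} {M M' A X : ℝ} :
    Rc n M A X ⊆ Ra n 1 M M' X ∪ {x | x ∈ Rc n M A X ∧ ∃ i, (rr (ab x) : ℝ) ^ M' < |(x i : ℝ)|} := by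
  intro x hx
  by_cases h : ∃ i, (rr (ab x) : ℝ) ^ M' < |(x i : ℝ)|
  · exact Or.inr ⟨hx, h⟩
  · obtain ⟨h1, h2, h3, h4, h5, h6⟩ := hx
    push Not at h
    exact Or.inl ⟨h1, h2, tp_of_cop h2 h3, h4, h5, h⟩

/-- the growth of the denominator -/
theorem tend_den : Tendsto (fun X : ℝ => √(Real.log X / Real.log (Real.log X))) atTop atTop := by
  have h1 : Tendsto (fun y : ℝ => y / Real.log y) atTop atTop := by
    have h2 : Tendsto (fun y : ℝ => Real.log y / y) atTop (𝓝[>] 0) := by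
      rw [tendsto_nhdsWithin_iff]
      refine ⟨?_, ?_⟩
      · have h3 := Real.isLittleO_log_id_atTop.tendsto_div_nhds_zero
        simpa using h3
      · filter_upwards [eventually_gt_atTop 1] with y hy
        exact div_pos (Real.log_pos hy) (by linarith)
    have h3 := h2.inv_tendsto_nhdsGT_zero
    refine h3.congr fun y => ?_
    simp
  exact Real.tendsto_sqrt_atTop.comp (h1.comp Real.tendsto_log_atTop)

/-- the comparison of two counts whose quotient is at most two -/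
theorem squeeze {a b : ℝ → ℝ} {E ℓ : ℝ} {G : ℝ → ℝ} (hG : Tendsto G atTop atTop)
    (ha : Tendsto (fun X => (Real.log (a X) - E * Real.log X) / G X) atTop (𝓝 ℓ)) (hab : ∀ᶠ X in atTop, 0 < a X ∧ a X ≤ b X ∧ b X ≤ 2 * a X) :
    Tendsto (fun X => (Real.log (b X) - E * Real.log X) / G X) atTop (𝓝 ℓ) := by
  have h1 : Tendsto (fun X => (Real.log (b X) - Real.log (a X)) / G X) atTop (𝓝 0) := by
    have h2 : Tendsto (fun X => Real.log 2 / G X) atTop (𝓝 0) := hG.const_div_atTop _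
    refine squeeze_zero' ?_ ?_ h2
    · filter_upwards [hab, hG.eventually_gt_atTop 0] with X hX hGX
      have := Real.log_le_log hX.1 hX.2.1
      exact div_nonneg (by linarith) hGX.le
    · filter_upwards [hab, hG.eventually_gt_atTop 0] with X hX hGX
      have h3 : Real.log (b X) ≤ Real.log 2 + Real.log (a X) := by
        rw [← Real.log_mul (by norm_num) hX.1.ne']
        exact Real.log_le_log (hX.1.trans_le hX.2.1) hX.2.2
      apply div_le_div_of_nonneg_right _ hGX.le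
      linarith
  have h2 := ha.add h1
  rw [add_zero] at h2
  refine h2.congr fun X => ?_
  rw [← add_div]
  congr 1
  ring

theorem cst_one (n : ℕ) (M : ℝ) : cst 1 (n.choose 1) * ((n : ℝ) * M - 1) ^ (((1 : ℕ) : ℝ) / (((1 : ℕ) : ℝ) + 1)) =
    √(8 * n * ((n : ℝ) * M - 1)) := by
  have e1 : (((1 : ℕ) : ℝ) / (((1 : ℕ) : ℝ) + 1)) = 1 / 2 := by norm_num
  have e2 : cst 1 (n.choose 1) = √(8 * n) := by
    unfold cst
    rw [Nat.choose_one_right]
    have e3 : ((((1 : ℕ) : ℝ) + 1) / ((1 : ℕ) : ℝ)) = 2 := by norm_num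
    have e4 : ((2 * ((1 : ℕ) : ℝ) + 1) / (((1 : ℕ) : ℝ) + 1)) = 3 * (1 / 2) := by norm_num
    have e5 : (1 : ℝ) / (((1 : ℕ) : ℝ) + 1) = 1 / 2 := by norm_num
    rw [e3, e4, e5, Real.rpow_mul (by norm_num), ← Real.sqrt_eq_rpow, ← Real.sqrt_eq_rpow,
      ← Real.sqrt_mul (by positivity)]
    norm_num
  rw [e1, e2, ← Real.sqrt_eq_rpow, ← Real.sqrt_mul (by positivity)]

theorem finrc (h1 : S_FINRN) : S_FINRC := by
  intro n A hn hA
  obtain ⟨m, rfl⟩ : ∃ m, n = m + 2 := ⟨n - 2, by omega⟩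
  have hm : 1 ≤ m := by omega
  have hm1 : (1 : ℝ) ≤ m := by exact_mod_cast hm
  obtain ⟨N, hN⟩ : ∃ N : ℝ, N = ((m + 2 : ℕ) : ℝ) := ⟨_, rfl⟩
  have hNm : N = (m : ℝ) + 2 := by rw [hN]; push_cast; ring
  have hN3 : 3 ≤ N := by rw [hNm]; linarith
  have hN0 : 0 < N := by linarith
  obtain ⟨ν, hν, hthr⟩ := Pool.Agent.Y594.NT.thr_upper m hm A hA
  have e3 : ((m : ℝ) + 1) / (m + 2) = 1 - 1 / N := by rw [hNm]; field_simp; ring
  rw [e3] at hthr
  -- the choice of M'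
  have hlt : 1 / N < 3 / (3 * N - 1) := by
    rw [div_lt_div_iff₀ hN0 (by linarith)]
    linarith
  have hle : 3 / (3 * N - 1) ≤ 1 := by
    rw [div_le_one (by linarith)]
    linarith
  obtain ⟨M', hM'1, hM'2⟩ : ∃ M' : ℝ, 1 / N < M' ∧ M' < min (3 / (3 * N - 1)) (1 / N + ν / 2) :=
    exists_between (lt_min hlt (by linarith))
  have hM'3 := hM'2.trans_le (min_le_left _ _)
  have hM'4 := hM'2.trans_le (min_le_right _ _)
  have hN1 : 0 < 1 / N := by positivity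
  have hM'0 : 0 < M' := by linarith
  obtain ⟨M₀, hM₀1, hM₀2⟩ : ∃ M₀ : ℝ, 1 / N < M₀ ∧ M₀ < M' := exists_between hM'1
  obtain ⟨δ, hδ⟩ : ∃ δ : ℝ, δ = (M' - M₀) / 2 := ⟨_, rfl⟩
  have hδ0 : 0 < δ := by rw [hδ]; linarith
  obtain ⟨C, hC, hup⟩ := hthr δ hδ0
  rw [← hN]
  refine ⟨M₀, hM₀1, fun M hM1 hM2 => ⟨fin_rc _ _ _, ?_⟩⟩
  obtain ⟨hf, ht, -⟩ := h1 (m + 2) 1 M M' le_rfl (by omega) (by rw [← hN]; exact hM1) (by linarith)
    (by rw [← hN]; exact hM'3)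
  have hNM : 0 < N * M - 1 := by
    have : 1 / N * N < M * N := mul_lt_mul_of_pos_right hM1 hN0
    rw [one_div_mul_cancel hN0.ne'] at this
    linarith
  rw [← hN, hN, cst_one, ← hN] at ht
  have e1 : (((1 : ℕ) : ℝ) / (((1 : ℕ) : ℝ) + 1)) = 1 / 2 := by norm_num
  simp only [e1, ← Real.sqrt_eq_rpow] at ht
  refine squeeze tend_den ht ?_
  -- the main term is at least X ^ (1 - M)
  have hpos : ∀ᶠ X : ℝ in atTop, X ^ (1 - M) ≤ ((Ra (m + 2) 1 M M' X).ncard : ℝ) := by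
    have h2 : 0 < √(8 * N * (N * M - 1)) := Real.sqrt_pos.2 (by positivity)
    filter_upwards [ht.eventually_const_lt h2, tend_den.eventually_gt_atTop 0, eventually_gt_atTop 1]
      with X hX1 hX2 hX3
    have h3 := (div_pos_iff_of_pos_right hX2).1 hX1
    have h4 : 0 < Real.log X := Real.log_pos hX3
    have h5 : 0 < (1 - M) * Real.log X := mul_pos (by linarith) h4
    have h6 : (0 : ℝ) < ((Ra (m + 2) 1 M M' X).ncard : ℝ) := by
      rcases Nat.eq_zero_or_pos (Ra (m + 2) 1 M M' X).ncard with h | h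
      · rw [h] at h3
        simp at h3
        linarith
      · exact_mod_cast h
    rw [← Real.log_le_log_iff (by positivity) h6, Real.log_rpow (by linarith)]
    linarith
  obtain ⟨γ, hγ⟩ : ∃ γ : ℝ, γ = min δ (ν / 2) := ⟨_, rfl⟩
  have hγ0 : 0 < γ := by rw [hγ]; exact lt_min hδ0 (by linarith)
  have hγ1 : γ ≤ δ := by rw [hγ]; exact min_le_left _ _
  have hγ2 : γ ≤ ν / 2 := by rw [hγ]; exact min_le_right _ _
  have hsmall : ∀ᶠ X : ℝ in atTop, 2 * C ≤ X ^ γ := (tendsto_rpow_atTop hγ0).eventually_ge_atTop _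
  filter_upwards [hpos, hsmall, eventually_ge_atTop 1] with X hX1 hX2 hX3
  have hX0 : 0 < X := by linarith
  have hp1 : 0 < X ^ (1 - M) := Real.rpow_pos_of_pos hX0 _
  refine ⟨hp1.trans_le hX1, ?_, ?_⟩
  · exact_mod_cast Set.ncard_le_ncard (ra_sub hM'0.le (by linarith)) (fin_rc _ _ _ _)
  · have h2 : (Rc (m + 2) M A X).ncard ≤ (Ra (m + 2) 1 M M' X).ncard +
        {x | x ∈ Rc (m + 2) M A X ∧ ∃ i, (rr (ab x) : ℝ) ^ M' < |(x i : ℝ)|}.ncard := by
      refine (Set.ncard_le_ncard rc_sub ((hf X).union ((fin_rc _ _ _ _).subset fun x hx => hx.1))).trans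
        (Set.ncard_union_le _ _)
    have h3 : (({x | x ∈ Rc (m + 2) M A X ∧ ∃ i, (rr (ab x) : ℝ) ^ M' < |(x i : ℝ)|}.ncard : ℕ) : ℝ) ≤
        C * (X ^ (1 - M' + δ) + X ^ (1 - 1 / N - ν)) := by
      refine Pool.Agent.Y594.NT.ncard_le _ _ (by positivity) fun E hE => hup X hX3 M' hM'0 (by linarith) E ?_
      intro z hz
      obtain ⟨z1, i, hi⟩ := hE z hz
      refine ⟨adm (by omega) z1, i, ?_⟩
      rw [← rr_eq, ← abs_cast]
      exact hi.le
    have h4 : X ^ (1 - M' + δ) ≤ X ^ (1 - M - γ) := by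
      apply Real.rpow_le_rpow_of_exponent_le hX3
      linarith
    have h5 : X ^ (1 - 1 / N - ν) ≤ X ^ (1 - M - γ) := by
      apply Real.rpow_le_rpow_of_exponent_le hX3
      linarith
    have h6 : C * (X ^ (1 - M' + δ) + X ^ (1 - 1 / N - ν)) ≤ X ^ (1 - M) := by
      calc C * (X ^ (1 - M' + δ) + X ^ (1 - 1 / N - ν)) ≤ C * (X ^ (1 - M - γ) + X ^ (1 - M - γ)) :=
            mul_le_mul_of_nonneg_left (by linarith) hC.le
        _ = 2 * C * X ^ (1 - M - γ) := by ring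
        _ ≤ X ^ γ * X ^ (1 - M - γ) := mul_le_mul_of_nonneg_right hX2 (by positivity)
        _ = X ^ (1 - M) := by
            rw [← Real.rpow_add hX0]
            congr 1
            ring
    have h7 : ((Rc (m + 2) M A X).ncard : ℝ) ≤ ((Ra (m + 2) 1 M M' X).ncard : ℝ) +
        (({x | x ∈ Rc (m + 2) M A X ∧ ∃ i, (rr (ab x) : ℝ) ^ M' < |(x i : ℝ)|}.ncard : ℕ) : ℝ) := by
      exact_mod_cast h2
    linarith

end Pool.Agent.N82.RN
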